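import Mathlib
import Pool.Agent.Helper34.SQ.GoalsT

/-!
Project SQ, packet VAN.
-/

set_option autoImplicit false

namespace Pool.Agent.Helper86.SQ

open Pool.Agent.Helper19.SQ Pool.Agent.Helper34.SQ

theorem succ_ne {l : ℕ} (hl : 2 ≤ l) (c : ZMod l) : c + 1 ≠ c := by
  have : Fact (1 < l) := ⟨by omega⟩
  intro h
  exact one_ne_zero (add_eq_left.1 h)

theorem al_succ {l : ℕ} (hl : 2 ≤ l) (c : ZMod l) : al c (c + 1) = -1 := by
  unfold al
  rw [if_neg (succ_ne hl c), if_pos rfl]
  norm_num

theorem al_self {l : ℕ} (hl : 2 ≤ l) (c : ZMod l) : al c c = 1 := by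
  unfold al
  rw [if_pos rfl, if_neg (succ_ne hl c).symm]
  norm_num

theorem down (P : ℕ → Prop) (N : ℕ) (hN : ∀ j, N ≤ j → P j)
    (hs : ∀ j, 1 ≤ j → P (j + 1) → P j) : P 1 := by
  have key : ∀ k j, 1 ≤ j → N ≤ j + k → P j := by
    intro k
    induction k with
    | zero =>
      intro j _ h
      exact hN j h
    | succ k ih =>
      intro j h1 h
      exact hs j h1 (ih (j + 1) (by omega) (by omega))
  exact key N 1 le_rfl (by omega)

/-- Packet VAN. -/
theorem t_van (hSW : S_SW) (hST : S_ST) : S_VAN := by
  intro A _ _ ι _ _ l hl C ζ c m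
  constructor
  · intro hT
    have h := down (fun j => EFZero C ζ c (m + (j : ℤ) • al c)) ((m (c + 1)).toNat + 1) ?_ ?_
    · simpa using h
    · intro j hj σ hσ
      have hnot : m + (j : ℤ) • al c ∉ C.types := by
        intro hmem
        have h1 := C.types_nonneg _ hmem (c + 1)
        rw [Pi.add_apply, Pi.smul_apply, al_succ hl, smul_eq_mul] at h1
        omega
      have he := C.e_types _ hnot
      funext y
      ext b
      have h3 := hσ.t3 b y
      rw [he, mul_zero, map_zero] at h3
      exact h3.symm
    · intro j hj h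
      have e1 : m + ((j + 1 : ℕ) : ℤ) • al c = (m + (j : ℤ) • al c) + al c := by
        push_cast
        rw [add_smul, one_smul, add_assoc]
      have h' : EFZero C ζ c (m + ((j + 1 : ℕ) : ℤ) • al c) := h
      rw [e1, ← hSW] at h'
      exact (hST A ι l C ζ c _ (hT j hj)).2 h'
  · intro hT
    have h := down (fun j => FEZero C ζ c (m - (j : ℤ) • al c)) ((m c).toNat + 1) ?_ ?_
    · simpa using h
    · intro j hj σ hσ
      have hnot : m - (j : ℤ) • al c ∉ C.types := by
        intro hmem
        have h1 := C.types_nonneg _ hmem c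
        rw [Pi.sub_apply, Pi.smul_apply, al_self hl, smul_eq_mul] at h1
        omega
      have he := C.e_types _ hnot
      funext y
      ext b
      have h3 := hσ.t3 b y
      rw [he, mul_zero, map_zero] at h3
      exact h3.symm
    · intro j hj h
      have e1 : (m - ((j + 1 : ℕ) : ℤ) • al c) + al c = m - (j : ℤ) • al c := by
        push_cast
        rw [add_smul, one_smul]
        abel
      have h' : FEZero C ζ c (m - ((j + 1 : ℕ) : ℤ) • al c) := h
      rw [hSW, e1] at h'
      exact (hST A ι l C ζ c _ (hT j hj)).1 h'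

end Pool.Agent.Helper86.SQ
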