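import Mathlib
import Pool.Agent.Helper34.SQ.GoalsT
import Pool.Agent.Helper86.SQ.VAN

/-!
Project SQ, packet SL2.
-/

set_option autoImplicit false

namespace Pool.Agent.Helper86.SQ

open Pool.Agent.Helper19.SQ Pool.Agent.Helper34.SQ

section

variable {A : Type} [Ring A] [Algebra ℂ A] {ι : Type} [Fintype ι] [DecidableEq ι] {l : ℕ}
  (C : Core A ι l) (c : ZMod l)

theorem Ft_smul (m : ZMod l → ℤ) (a : ℂ) (τ : A →ₗ[ℂ] ℂ) :
    Ft C c m (a • τ) = a • Ft C c m τ := by
  ext x
  rw [Ft_apply, LinearMap.smul_apply, LinearMap.smul_apply, Ft_apply]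

theorem Et_smul (m : ZMod l → ℤ) (a : ℂ) (τ : A →ₗ[ℂ] ℂ) :
    Et C c m (a • τ) = a • Et C c m τ := by
  ext x
  rw [Et_apply, LinearMap.smul_apply, LinearMap.smul_apply, Et_apply]

theorem Ft_zero (m : ZMod l → ℤ) : Ft C c m 0 = 0 := by
  ext x
  rw [Ft_apply, LinearMap.zero_apply, LinearMap.zero_apply]

end

/-- Packet SL2. -/
theorem t_sl2 (hTRF : S_TRF) (hEFFE : S_EFFE) : S_SL2 := by
  intro A _ _ ι _ _ l hl C ζ c m τ hτ hE h hh
  have hM1 : ∀ k : ℕ, (m - (k : ℤ) • al c) - al c = m - ((k + 1 : ℕ) : ℤ) • al c := by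
    intro k
    push_cast
    rw [add_smul, one_smul]
    abel
  have hM2 : ∀ k : ℕ, (m - ((k + 1 : ℕ) : ℤ) • al c) + al c = m - (k : ℤ) • al c := by
    intro k
    push_cast
    rw [add_smul, one_smul]
    abel
  have hM0 : m - ((0 : ℕ) : ℤ) • al c = m := by simp
  have hF : ∀ k : ℕ, IsTrz C ζ (m - (k : ℤ) • al c) (Ftn C c m k τ) := by
    intro k
    induction k with
    | zero =>
      rw [hM0]
      exact hτ
    | succ k ih =>
      have h1 := (hTRF A ι l C ζ c _ _ ih).1
      rw [hM1] at h1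
      exact h1
  have hdiff : ∀ k : ℕ, (m - (k : ℤ) • al c) c - (m - (k : ℤ) • al c) (c + 1) =
      (h : ℤ) - 2 * k := by
    intro k
    rw [Pi.sub_apply, Pi.sub_apply, Pi.smul_apply, Pi.smul_apply, al_self hl, al_succ hl,
      smul_eq_mul, smul_eq_mul]
    omega
  have hB : ∀ k : ℕ, Et C c (m - ((k + 1 : ℕ) : ℤ) • al c) (Ftn C c m (k + 1) τ) =
      (((k : ℂ) + 1) * ((h : ℂ) - k)) • Ftn C c m k τ := by
    intro k
    induction k with
    | zero =>
      have h1 := hEFFE A ι l C ζ c _ _ (hF 0)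
      rw [hM1, hdiff] at h1
      rw [hM0] at h1
      have h2 : Et C c m (Ftn C c m 0 τ) = 0 := hE
      rw [h2, Ft_zero, sub_zero] at h1
      have h3 : Ftn C c m (0 + 1) τ = Ft C c m (Ftn C c m 0 τ) := by
        show Ft C c (m - ((0 : ℕ) : ℤ) • al c) (Ftn C c m 0 τ) = _
        rw [hM0]
      rw [h3, h1]
      congr 1
      push_cast
      ring
    | succ k ih =>
      have h1 := hEFFE A ι l C ζ c _ _ (hF (k + 1))
      rw [hM1, hM2, hdiff, ih, Ft_smul] at h1
      have h3 : Ft C c (m - (k : ℤ) • al c) (Ftn C c m k τ) = Ftn C c m (k + 1) τ := rfl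
      have h4 : Ft C c (m - ((k + 1 : ℕ) : ℤ) • al c) (Ftn C c m (k + 1) τ) =
        Ftn C c m (k + 1 + 1) τ := rfl
      rw [h3, h4, sub_eq_iff_eq_add, ← add_smul] at h1
      rw [h1]
      congr 1
      push_cast
      ring
  have hC : ∀ i : ℕ, i ≤ h → Etn C c (m - (h : ℤ) • al c) i (Ftn C c m h τ) =
      ((h.descFactorial i : ℂ) * (i.factorial : ℂ)) • Ftn C c m (h - i) τ := by
    intro i
    induction i with
    | zero =>
      intro _
      show Ftn C c m h τ = _
      simp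
    | succ i ih =>
      intro hi
      obtain ⟨k, hk⟩ : ∃ k, h = k + 1 + i := ⟨h - i - 1, by omega⟩
      have e1 : h - i = k + 1 := by omega
      have e2 : h - (i + 1) = k := by omega
      have e3 : m - (h : ℤ) • al c + (i : ℤ) • al c = m - ((k + 1 : ℕ) : ℤ) • al c := by
        rw [hk]
        push_cast
        simp only [add_smul, one_smul]
        abel
      show Et C c (m - (h : ℤ) • al c + (i : ℤ) • al c)
        (Etn C c (m - (h : ℤ) • al c) i (Ftn C c m h τ)) = _
      rw [ih (by omega), e3, Et_smul, e1, hB, e2, smul_smul, Nat.descFactorial_succ, e1,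
        Nat.factorial_succ]
      congr 1
      have e4 : (h : ℂ) - k = (i : ℂ) + 1 := by
        rw [hk]
        push_cast
        ring
      rw [e4]
      push_cast
      ring
  rw [hC h le_rfl, Nat.descFactorial_self, Nat.sub_self, sq]
  rfl

end Pool.Agent.Helper86.SQ
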