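import Mathlib
import Pool.Agent.Helper19.SQ.GoalsB

/-!
Project SQ, packet NILP.
-/

set_option autoImplicit false

namespace Pool.Agent.Helper86.SQ

open Pool.Agent.Helper19.SQ Pool.Agent.Helper41.SQ

/-- Packet NILP. -/
theorem b_nilp (hN : S_NILC) : Pool.Agent.Helper19.SQ.S_NILP := by
  intro N l _ q hl s hP e he b hb hact m k
  apply hN N l q hP
  · intro a
    have h1 : b k * a = a * b k := hb k a
    have h2 := he.cen m
    have h3 : algebraMap ℂ (A N l q) (Bco q m k) * a = a * algebraMap ℂ (A N l q) (Bco q m k) :=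
      Algebra.commutes _ _
    rw [mul_assoc, h2 a, ← mul_assoc, sub_mul, h1, h3, ← mul_sub, mul_assoc]
  · intro lam v hv
    have h1 : b k • v = Bco q (ty lam) k • v := hact k (A N l q) lam v hv
    have h2 : e m • v = if ty lam = m then v else 0 := he.act (A N l q) lam v m hv
    rw [smul_eq_mul] at h1 h2
    rw [mul_assoc, h2]
    by_cases h : ty lam = m
    · rw [if_pos h, sub_mul, h1, ← Algebra.smul_def, h, sub_self]
    · rw [if_neg h, mul_zero]

end Pool.Agent.Helper86.SQ
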