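import Mathlib
import Pool.Agent.Helper19.SQ.GoalsH

/-!
Project SQ, packet MONW: monomials are combinations of words.
-/

set_option autoImplicit false

namespace Pool.Agent.Helper86.SQ

open Pool.Agent.Helper19.SQ

/-- combinations of words of length `n` -/
noncomputable def WW {B : Type} [Ring B] [Algebra ℂ B] (N : ℕ) (E : ℕ → B) (n : ℕ) :
    Submodule ℂ B :=
  Submodule.span ℂ {x | ∃ w : List ℕ, w.length = n ∧ (∀ k ∈ w, k < N) ∧ x = (w.map E).prod}

section

variable {B : Type} [Ring B] [Algebra ℂ B] {N : ℕ} {E : ℕ → B}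

theorem ww_one : (1 : B) ∈ WW N E 0 :=
  Submodule.subset_span ⟨[], rfl, by simp, by simp⟩

theorem ww_gen {i : ℕ} (hi : i < N) : E i ∈ WW N E 1 :=
  Submodule.subset_span ⟨[i], rfl, by simpa using hi, by simp⟩

theorem ww_mul {m n : ℕ} {x y : B} (hx : x ∈ WW N E m) (hy : y ∈ WW N E n) :
    x * y ∈ WW N E (m + n) := by
  have h := Submodule.mul_mem_mul hx hy
  rw [WW, WW, Submodule.span_mul_span] at h
  refine (Submodule.span_le.2 ?_) h
  rintro _ ⟨a, ⟨w, hw1, hw2, rfl⟩, b, ⟨w', hw1', hw2', rfl⟩, rfl⟩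
  refine Submodule.subset_span ⟨w ++ w', by rw [List.length_append, hw1, hw1'], ?_, by simp⟩
  intro k hk
  rcases List.mem_append.1 hk with h | h
  · exact hw2 k h
  · exact hw2' k h

theorem ww_pow {m : ℕ} {x : B} (hx : x ∈ WW N E m) (k : ℕ) : x ^ k ∈ WW N E (k * m) := by
  induction k with
  | zero =>
    rw [pow_zero, Nat.zero_mul]
    exact ww_one
  | succ k ih =>
    rw [pow_succ, Nat.succ_mul]
    exact ww_mul ih hx

theorem ww_list (f : ℕ → B) (g : ℕ → ℕ) (l : List ℕ) (h : ∀ i ∈ l, f i ∈ WW N E (g i)) :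
    (l.map f).prod ∈ WW N E (l.map g).sum := by
  induction l with
  | nil => exact ww_one
  | cons a l ih =>
    rw [List.map_cons, List.map_cons, List.prod_cons, List.sum_cons]
    exact ww_mul (h a (by simp)) (ih (fun i hi => h i (List.mem_cons_of_mem _ hi)))

theorem list_sum (g : ℕ → ℕ) (n : ℕ) : ((List.range n).map g).sum = ∑ i ∈ Finset.range n, g i := by
  induction n with
  | zero => simp
  | succ n ih => simp [List.range_succ, Finset.sum_range_succ, ih]

theorem ww_rvA (q : ℂ) (d : ℕ) : ∀ i, i + d < N → rvA q E d i ∈ WW N E (d + 1) := by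
  induction d with
  | zero =>
    intro i hi
    exact ww_gen hi
  | succ d ih =>
    intro i hi
    have h1 := ih (i + 1) (by omega)
    have h2 : E i ∈ WW N E 1 := ww_gen (by omega)
    show E i * rvA q E d (i + 1) - q⁻¹ • (rvA q E d (i + 1) * E i) ∈ _
    refine Submodule.sub_mem _ ?_ (Submodule.smul_mem _ _ (ww_mul h1 h2))
    have h3 := ww_mul h2 h1
    rwa [show 1 + (d + 1) = d + 1 + 1 by ring] at h3

end

theorem ht_eq (N : ℕ) (b : ℕ → ℕ → ℕ) : ht N b =
    ∑ i ∈ Finset.range N, ∑ d ∈ Finset.range (N - i), b i (i + 1 + d) * (d + 1) := by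
  unfold ht
  have key : ∀ i, i ≤ N → ∑ j ∈ Finset.range (N + 1), b i j * (j - i) =
      ∑ d ∈ Finset.range (N - i), b i (i + 1 + d) * (d + 1) := by
    intro i hi
    rw [show N + 1 = (i + 1) + (N - i) by omega, Finset.sum_range_add]
    rw [Finset.sum_eq_zero (s := Finset.range (i + 1)), zero_add]
    · refine Finset.sum_congr rfl (fun d _ => ?_)
      rw [show i + 1 + d - i = d + 1 by omega]
    · intro j hj
      rw [Finset.mem_range] at hj
      rw [show j - i = 0 by omega, Nat.mul_zero]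
  rw [Finset.sum_range_succ, key N le_rfl, Nat.sub_self, Finset.range_zero, Finset.sum_empty,
    add_zero]
  refine Finset.sum_congr rfl (fun i hi => ?_)
  rw [Finset.mem_range] at hi
  exact key i hi.le

/-- Packet MONW. -/
theorem s_monw : S_MONW := by
  intro B _ _ N q E b _
  show mon N q E b ∈ WW N E (ht N b)
  rw [ht_eq]
  unfold mon
  rw [← list_sum]
  refine ww_list _ _ _ ?_
  intro i hi
  rw [List.mem_range] at hi
  unfold rowM
  rw [← list_sum]
  refine ww_list _ _ _ ?_
  intro d hd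
  rw [List.mem_range] at hd
  refine ww_pow ?_ _
  unfold rv
  rw [show i + 1 + d - i - 1 = d by omega]
  exact ww_rvA q d i (by omega)

end Pool.Agent.Helper86.SQ
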