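import Pool.Agent.Helper19.SQ.GoalsC

/-! # Packet SQ-CLP: a closure lemma -/

set_option autoImplicit false

namespace Pool.Agent.Helper86.SQ

open Pool.Agent.Helper19.SQ

private lemma third {l : ℕ} [NeZero l] (hl : 3 ≤ l) (a b : ZMod l) : ∃ c, c ≠ a ∧ c ≠ b := by
  classical
  have h1 : ({a, b} : Finset (ZMod l)).card < (Finset.univ : Finset (ZMod l)).card := by
    have h2 : ({a, b} : Finset (ZMod l)).card ≤ 2 := Finset.card_le_two
    rw [Finset.card_univ, ZMod.card]
    omega
  obtain ⟨c, _, hc⟩ := Finset.exists_mem_notMem_of_card_lt_card h1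
  rw [Finset.mem_insert, Finset.mem_singleton, not_or] at hc
  exact ⟨c, hc.1, hc.2⟩

theorem s_clp : S_CLP := by
  intro l _ hl P hcl h1 h2
  have hne : ∀ i j : ℕ, i < l → j < l → i ≠ j → (i : ZMod l) ≠ (j : ZMod l) := by
    intro i j hi hj hij h
    rw [ZMod.natCast_eq_natCast_iff', Nat.mod_eq_of_lt hi, Nat.mod_eq_of_lt hj] at h
    exact hij h
  have hne1 : ∀ i : ℕ, i + 1 < l → (i : ZMod l) ≠ -1 := by
    intro i hi h
    have h3 : ((i + 1 : ℕ) : ZMod l) = ((0 : ℕ) : ZMod l) := by
      push_cast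
      rw [h]
      ring
    exact hne (i + 1) 0 hi (by omega) (by omega) h3
  -- (1)
  have q1 : ∀ n i : ℕ, i + n + 1 < l → P (i : ZMod l) ((i + n + 1 : ℕ) : ZMod l) 0 0 ∧
      P ((i + n + 1 : ℕ) : ZMod l) (i : ZMod l) 0 0 := by
    intro n
    induction n with
    | zero =>
      intro i hi
      have h3 := h1 (i : ZMod l) 0 (hne1 i hi)
      rw [show ((i + 0 + 1 : ℕ) : ZMod l) = (i : ZMod l) + 1 by push_cast; ring]
      exact h3
    | succ n ih =>
      intro i hi
      obtain ⟨a1, a2⟩ := ih i (by omega)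
      have h3 := h1 ((i + n + 1 : ℕ) : ZMod l) 0 (hne1 _ (by omega))
      have e : ((i + n + 1 : ℕ) : ZMod l) + 1 = ((i + (n + 1) + 1 : ℕ) : ZMod l) := by
        push_cast
        ring
      rw [e] at h3
      have n1 := hne i (i + n + 1) (by omega) (by omega) (by omega)
      have n2 := hne (i + n + 1) (i + (n + 1) + 1) (by omega) (by omega) (by omega)
      have n3 := hne i (i + (n + 1) + 1) (by omega) (by omega) (by omega)
      exact ⟨hcl _ _ _ _ _ _ _ n1 n2 n3 a1 h3.1, hcl _ _ _ _ _ _ _ n2.symm n1.symm n3.symm h3.2 a2⟩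
  have q : ∀ a b : ZMod l, a ≠ b → P a b 0 0 := by
    intro a b hab
    have ha := ZMod.natCast_zmod_val a
    have hb := ZMod.natCast_zmod_val b
    have la := ZMod.val_lt a
    have lb := ZMod.val_lt b
    have hv : a.val ≠ b.val := fun h => hab (ZMod.val_injective l h)
    rcases Nat.lt_or_ge a.val b.val with h | h
    · have h3 := (q1 (b.val - a.val - 1) a.val (by omega)).1
      rw [show a.val + (b.val - a.val - 1) + 1 = b.val by omega, ha, hb] at h3
      exact h3
    · have h3 := (q1 (a.val - b.val - 1) b.val (by omega)).2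
      rw [show b.val + (a.val - b.val - 1) + 1 = a.val by omega, ha, hb] at h3
      exact h3
  -- (2)
  have cs : ∀ a b c r s, a ≠ b → a ≠ c → P a b r s → P a c r s := by
    intro a b c r s hab hac h
    by_cases hbc : b = c
    · rw [← hbc]; exact h
    · have h3 := hcl a b c r s 0 0 hab hbc hac h (q b c hbc)
      rwa [add_zero, add_zero] at h3
  have cf : ∀ a b c r s, a ≠ b → c ≠ b → P a b r s → P c b r s := by
    intro a b c r s hab hcb h
    by_cases hca : c = a
    · rw [hca]; exact h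
    · have h3 := hcl c a b 0 0 r s hca hab hcb (q c a hca) h
      rwa [zero_add, zero_add] at h3
  have un : ∀ a b a' b' r s, a ≠ b → a' ≠ b' → P a b r s → P a' b' r s := by
    intro a b a' b' r s hab hab' h
    by_cases h3 : a' = b
    · obtain ⟨c, hca, hcb⟩ := third hl a b
      have h4 := cs a b c r s hab hca.symm h
      have h5 := cf a c b r s hca.symm hcb.symm h4
      rw [h3] at hab' ⊢
      exact cs b c b' r s hcb.symm hab' h5
    · exact cs a' b b' r s h3 hab' (cf a b a' r s hab h3 h)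
  have n01 : (0 : ZMod l) ≠ 1 := by
    have := hne 0 1 (by omega) (by omega) (by omega)
    simpa using this
  have n0m : (0 : ZMod l) ≠ -1 := by
    have := hne1 0 (by omega)
    simpa using this
  -- (3)
  have ad : ∀ r s r' s', P 0 1 r s → P 0 1 r' s' → P 0 1 (r + r') (s + s') := by
    intro r s r' s' h h'
    obtain ⟨c, hc0, hc1⟩ := third hl (0 : ZMod l) 1
    exact hcl 0 c 1 r s r' s' hc0.symm hc1 n01 (un 0 1 0 c r s n01 hc0.symm h)
      (un 0 1 c 1 r' s' n01 hc1 h')
  have br : ∀ r, P 0 1 r 0 := by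
    intro r
    have := (h1 0 r n0m).1
    rwa [zero_add] at this
  have bp : P 0 1 0 1 := un 0 (-1) 0 1 0 1 n0m n01 (h2 0).2
  have bm : P 0 1 0 (-1) := un (-1) 0 0 1 0 (-1) n0m.symm n01 (h2 0).1
  have pn : ∀ n : ℕ, P 0 1 0 (n : ℤ) ∧ P 0 1 0 (-(n : ℤ)) := by
    intro n
    induction n with
    | zero => simpa using br 0
    | succ n ih =>
      have h3 := ad _ _ _ _ ih.1 bp
      have h4 := ad _ _ _ _ ih.2 bm
      refine ⟨?_, ?_⟩
      · simpa using h3
      · have e : -((n + 1 : ℕ) : ℤ) = -(n : ℤ) + -1 := by push_cast; ring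
        rw [e]
        simpa using h4
  have all : ∀ r s, P 0 1 r s := by
    intro r s
    have hs : P 0 1 0 s := by
      rcases Int.eq_nat_or_neg s with ⟨n, hn | hn⟩
      · rw [hn]; exact (pn n).1
      · rw [hn]; exact (pn n).2
    have h3 := ad _ _ _ _ (br r) hs
    rwa [add_zero, zero_add] at h3
  intro a b r s hab
  exact un 0 1 a b r s n01 hab (all r s)

end Pool.Agent.Helper86.SQ
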