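import Mathlib
import Pool.Agent.Helper34.SQ.GoalsT
import Pool.Agent.Helper86.SQ.VAN

/-!
Project SQ, packet STEP.
-/

set_option autoImplicit false

namespace Pool.Agent.Helper86.SQ

open Pool.Agent.Helper19.SQ Pool.Agent.Helper34.SQ

section

variable {l : ℕ} [NeZero l]

theorem sum_al (c : ZMod l) (f : ZMod l → ℤ) : ∑ x, f x * al c x = f c - f (c + 1) := by
  unfold al
  simp only [mul_sub, mul_ite, mul_one, mul_zero, Finset.sum_sub_distrib, Finset.sum_ite_eq',
    Finset.mem_univ, if_true]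

theorem sum_sq (hl : 2 ≤ l) (c : ZMod l) (m : ZMod l → ℤ) (t : ℤ) :
    ∑ x, (m + t • al c) x ^ 2 = ∑ x, m x ^ 2 + 2 * t * (m c - m (c + 1)) + 2 * t ^ 2 := by
  have h1 := sum_al c m
  have h2 := sum_al c (al c)
  rw [al_self hl, al_succ hl] at h2
  have h3 : ∀ x, (m + t • al c) x ^ 2 =
      m x ^ 2 + 2 * t * (m x * al c x) + t ^ 2 * (al c x * al c x) := by
    intro x
    rw [Pi.add_apply, Pi.smul_apply, smul_eq_mul]
    ring
  simp only [h3]
  rw [Finset.sum_add_distrib, Finset.sum_add_distrib, ← Finset.mul_sum, ← Finset.mul_sum, h1, h2]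
  ring

end

/-- Packet STEP. -/
theorem t_step (hVAN : S_VAN) (hKILL : S_KILL) (hTRF : S_TRF) (hSL2 : S_SL2) (hIDL : S_IDL)
    (hIT : S_IT) : S_STEP := by
  intro A _ _ ι _ _ l _ hl C ζ c m h hh hT τ hτ
  -- blocks
  have hFk : ∀ k : ℕ, IsTrz C ζ (m - (k : ℤ) • al c) (Ftn C c m k τ) := by
    intro k
    induction k with
    | zero =>
      have : m - ((0 : ℕ) : ℤ) • al c = m := by simp
      rw [this]
      exact hτ
    | succ k ih =>
      have h1 := (hTRF A ι l C ζ c _ _ ih).1
      have h2 : (m - (k : ℤ) • al c) - al c = m - ((k + 1 : ℕ) : ℤ) • al c := by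
        push_cast
        rw [add_smul, one_smul]
        abel
      rw [h2] at h1
      exact h1
  have hτ' := hFk h
  have hT1 : ∀ j : ℕ, 1 ≤ j → TrZero C ζ (m + (j : ℤ) • al c) := by
    intro j hj
    refine hT _ ?_
    rw [sum_sq hl, ← hh]
    have hj' : (1 : ℤ) ≤ j := by exact_mod_cast hj
    have hh' : (0 : ℤ) ≤ h := Int.natCast_nonneg h
    have e1 : 0 ≤ 2 * (j : ℤ) * h := by positivity
    have e2 : 0 < 2 * (j : ℤ) ^ 2 := by positivity
    linarith
  have hT2 : ∀ j : ℕ, 1 ≤ j → TrZero C ζ ((m - (h : ℤ) • al c) - (j : ℤ) • al c) := by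
    intro j hj
    refine hT _ ?_
    have e0 : (m - (h : ℤ) • al c) - (j : ℤ) • al c = m + (-((h : ℤ) + j)) • al c := by
      rw [neg_smul, add_smul]
      abel
    rw [e0, sum_sq hl, ← hh]
    have hj' : (1 : ℤ) ≤ j := by exact_mod_cast hj
    have hh' : (0 : ℤ) ≤ h := Int.natCast_nonneg h
    have e1 : 0 ≤ 2 * (j : ℤ) * h := by positivity
    have e2 : 0 < 2 * (j : ℤ) ^ 2 := by positivity
    have e3 : 2 * -((h : ℤ) + j) * h + 2 * (-((h : ℤ) + j)) ^ 2 = 2 * (j : ℤ) * h +
        2 * (j : ℤ) ^ 2 := by ring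
    linarith
  have hEF := (hVAN A ι l hl C ζ c m).1 hT1
  have hk1 := (hKILL A ι l C ζ c m τ hτ).1 hEF
  have hFE := (hVAN A ι l hl C ζ c (m - (h : ℤ) • al c)).2 hT2
  have hk2 := (hKILL A ι l C ζ c (m - (h : ℤ) • al c) _ hτ').2 hFE
  have hE0 : Et C c m τ = 0 := by
    ext x
    rw [Et_apply, Matrix.trace, map_sum, LinearMap.zero_apply]
    refine Finset.sum_eq_zero (fun i _ => ?_)
    have := hk1 1 x i i
    rw [one_mul] at this
    exact this
  refine ⟨?_, hτ', ?_⟩
  · intro i j
    rw [mem_It]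
    intro y
    rw [hτ.tr]
    have := hk1 y 1 i j
    rw [one_mul] at this
    exact this
  · -- the ideals
    have hTop : Fi C c (m - (h : ℤ) • al c) (It (Ftn C c m h τ)) = ⊤ := by
      rw [eq_top_iff]
      intro a _
      rw [mem_Fi]
      intro i j
      rw [mem_It]
      intro y
      rw [hτ'.tr]
      exact hk2 y a i j
    obtain ⟨-, -, -, -, -, -, -, -, i9, i10, -, -⟩ := hIDL A ι l C c (m - (h : ℤ) • al c)
    have h1 := hIT A ι l C c (m - (h : ℤ) • al c) (It (Ftn C c m h τ)) (i9 ζ _ hτ')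
      (i10 ζ _ hτ') hTop h
    rw [sub_add_cancel] at h1
    refine h1.trans ?_
    -- traces `E^k τ'`
    have hEk : ∀ k : ℕ, IsTrz C ζ ((m - (h : ℤ) • al c) + (k : ℤ) • al c)
        (Etn C c (m - (h : ℤ) • al c) k (Ftn C c m h τ)) := by
      intro k
      induction k with
      | zero =>
        have : (m - (h : ℤ) • al c) + ((0 : ℕ) : ℤ) • al c = m - (h : ℤ) • al c := by simp
        rw [this]
        exact hτ'
      | succ k ih =>
        have h1 := (hTRF A ι l C ζ c _ _ ih).2
        have h2 : (m - (h : ℤ) • al c + (k : ℤ) • al c) + al c =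
            m - (h : ℤ) • al c + ((k + 1 : ℕ) : ℤ) • al c := by
          push_cast
          rw [add_smul, one_smul]
          abel
        rw [h2] at h1
        exact h1
    have hEle : ∀ k : ℕ, Ein' C c (m - (h : ℤ) • al c) k (It (Ftn C c m h τ)) ≤
        It (Etn C c (m - (h : ℤ) • al c) k (Ftn C c m h τ)) := by
      intro k
      induction k with
      | zero => exact le_refl _
      | succ k ih =>
        obtain ⟨-, -, -, i4, -, -, -, -, -, -, -, i12⟩ :=
          hIDL A ι l C c ((m - (h : ℤ) • al c) + (k : ℤ) • al c)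
        exact (i4 _ _ ih).trans (i12 ζ _ (hEk k))
    have hfin : Ein' C c (m - (h : ℤ) • al c) h (It (Ftn C c m h τ)) ≤ It τ := by
      refine (hEle h).trans ?_
      rw [hSL2 A ι l hl C ζ c m τ hτ hE0 h hh]
      intro x hx
      rw [mem_It] at hx ⊢
      intro y
      have h3 := hx y
      rw [LinearMap.smul_apply, smul_eq_mul] at h3
      have h4 : ((h.factorial : ℂ) ^ 2) ≠ 0 := by
        have : (h.factorial : ℂ) ≠ 0 := by exact_mod_cast h.factorial_ne_zero
        exact pow_ne_zero 2 this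
      exact (mul_eq_zero.1 h3).resolve_left h4
    -- monotonicity of `F^k`
    have hmono : ∀ k : ℕ, ∀ I J : Submodule ℂ A, I ≤ J → Fin' C c m k I ≤ Fin' C c m k J := by
      intro k
      induction k with
      | zero => exact fun I J hIJ => hIJ
      | succ k ih =>
        intro I J hIJ
        obtain ⟨-, -, i3, -⟩ := hIDL A ι l C c (m - (k : ℤ) • al c)
        exact i3 _ _ (ih I J hIJ)
    exact hmono h _ _ hfin

end Pool.Agent.Helper86.SQ
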