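import Pool.Agent.Helper41.SQ.GoalsN

/-!
Project SQ, stage B, packet POL: closures with polynomials vanish.
-/

set_option autoImplicit false
set_option linter.unusedSectionVars false

namespace Pool.Agent.Helper86.SQN

open Matrix Pool.Agent.Helper19.SQ Pool.Agent.Helper34.SQ Pool.Agent.Helper41.SQ

section

variable {A : Type} [Ring A] [Algebra ℂ A] {ι κ : Type} [Fintype ι] [DecidableEq ι]
  [Fintype κ] [DecidableEq κ]

theorem PhG_mul_bdG (H : A →ₐ[ℂ] Matrix κ κ A) (M : Matrix ι ι A) (Z : Matrix κ κ A)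
    (x y : ι × κ) : (PhG H M * bdG ι Z) x y = (H (M x.1 y.1) * Z) x.2 y.2 := by
  rw [Matrix.mul_apply, Fintype.sum_prod_type, Finset.sum_eq_single y.1]
  · rw [Matrix.mul_apply]
    refine Finset.sum_congr rfl (fun R _ => ?_)
    rw [PhG_apply, bdG_apply, if_pos rfl]
  · intro c _ hc
    refine Finset.sum_eq_zero (fun R _ => ?_)
    rw [bdG_apply, if_neg hc, mul_zero]
  · intro h
    exact absurd (Finset.mem_univ _) h

theorem trace_one (S : Sd A ι) (H : A →ₐ[ℂ] Matrix κ κ A) (M : Matrix ι ι A) (Z : Matrix κ κ A)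
    (hZ : ∀ a, Z * H a = H a * Z) (y : A) :
    Matrix.trace (PhG H M * bdG ι Z * nH S H y) = Matrix.trace (Z * H (Matrix.trace (M * S.D y))) := by
  have h1 : Matrix.trace (PhG H M * bdG ι Z * nH S H y) =
      ∑ a, ∑ c, Matrix.trace (H (M a c) * Z * H (S.D y c a)) := by
    rw [Matrix.trace, Fintype.sum_prod_type]
    refine Finset.sum_congr rfl (fun a _ => ?_)
    have h2 : ∀ P, (PhG H M * bdG ι Z * nH S H y).diag (a, P) =
        ∑ c, (H (M a c) * Z * H (S.D y c a)) P P := by
      intro P
      rw [Matrix.diag_apply, Matrix.mul_apply, Fintype.sum_prod_type]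
      refine Finset.sum_congr rfl (fun c _ => ?_)
      rw [Matrix.mul_apply]
      refine Finset.sum_congr rfl (fun Q _ => ?_)
      rw [PhG_mul_bdG, nH_apply]
    rw [Finset.sum_congr rfl (fun P _ => h2 P), Finset.sum_comm]
    rfl
  have h3 : ∀ a c, Matrix.trace (H (M a c) * Z * H (S.D y c a)) =
      Matrix.trace (Z * H (M a c * S.D y c a)) := by
    intro a c
    rw [← hZ, mul_assoc, ← map_mul]
  rw [h1]
  simp only [h3]
  have h4 : Matrix.trace (M * S.D y) = ∑ a, ∑ c, M a c * S.D y c a := by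
    rw [Matrix.trace]
    refine Finset.sum_congr rfl (fun a _ => ?_)
    rw [Matrix.diag_apply, Matrix.mul_apply]
  rw [h4]
  simp only [map_sum, Finset.mul_sum, Matrix.trace_sum]

theorem mono_nX (S : Sd A ι) (H : A →ₐ[ℂ] Matrix κ κ A) (X : ℕ → Matrix κ κ A) (k : ℕ → ℕ)
    (n : ℕ) : mono (nX S H X) k (n + 1) =
      PhG H (S.X ^ k 0) * bdG ι (mono X (fun i => k (i + 1)) n) := by
  unfold mono
  rw [run_succ_left]
  have h1 : bdG ι (run (fun i => X i ^ k (i + 1)) 0 n) =
      run (fun i => bdG ι (X i ^ k (i + 1))) 0 n :=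
    run_map ((bdG (A := A) (κ := κ) ι : Matrix κ κ A →ₐ[ℂ] Matrix (ι × κ) (ι × κ) A) :
      Matrix κ κ A →* Matrix (ι × κ) (ι × κ) A) _ 0 n
  have h2 : run (fun i => nX S H X i ^ k i) (0 + 1) n =
      run (fun i => nX S H X (1 + i) ^ k (1 + i)) 0 n :=
    (run_shift (fun i => nX S H X i ^ k i) 0 1 n).symm
  rw [h1, h2]
  congr 1
  · show PhG H S.X ^ k 0 = PhG H (S.X ^ k 0)
    rw [map_pow]
  · apply run_congr
    intro i _ _
    show nX S H X (1 + i) ^ k (1 + i) = bdG ι (X i ^ k (i + 1))
    rw [add_comm 1 i, map_pow]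
    rfl

theorem mono_comm (H : A →ₐ[ℂ] Matrix κ κ A) (X : ℕ → Matrix κ κ A)
    (hX : ∀ i a, X i * H a = H a * X i) (k : ℕ → ℕ) (n : ℕ) (a : A) :
    mono X k n * H a = H a * mono X k n := by
  unfold mono
  refine (run_commute (fun i _ _ => ?_)).symm
  have h : Commute (H a) (X i) := (hX i a).symm
  exact h.pow_right (k i)

theorem trace_step (S : Sd A ι) (H : A →ₐ[ℂ] Matrix κ κ A) (X : ℕ → Matrix κ κ A)
    (hX : ∀ i a, X i * H a = H a * X i) (k : ℕ → ℕ) (n : ℕ) (y : A) :
    Matrix.trace (mono (nX S H X) k (n + 1) * nH S H y) =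
      Matrix.trace (mono X (fun i => k (i + 1)) n * H (Matrix.trace (S.X ^ k 0 * S.D y))) := by
  rw [mono_nX, trace_one S H _ _ (mono_comm H X hX _ n)]

theorem trace_mul_diag (M : Matrix κ κ A) (a : A) :
    Matrix.trace M * a = Matrix.trace (M * Matrix.diagonal fun _ => a) := by
  rw [Matrix.trace, Matrix.trace, Finset.sum_mul]
  refine Finset.sum_congr rfl (fun x _ => ?_)
  rw [Matrix.diag_apply, Matrix.diag_apply, Matrix.mul_diagonal]

end

/-- Packet POL. -/
theorem n_pol (hT : S_TOW) (hW : S_WT) : Pool.Agent.Helper41.SQ.S_POL := by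
  intro A _ _ ι _ _ S l e types h β B τ m hτ h0 j
  induction j with
  | zero =>
    intro k x
    have hX := (hT A ι S 0).cX
    have h1 := trace_step S (tow S 0).H (tow S 0).X hX k 0 (x * e (m + (0 + 1) • β))
    have h2 : τ (Matrix.trace (mono (nX S (tow S 0).H (tow S 0).X) k (0 + 1) *
        nH S (tow S 0).H (x * e (m + (0 + 1) • β)))) = 0 := by
      rw [h1]
      have h3 : Matrix.trace (mono (tow S 0).X (fun i => k (i + 1)) 0 *
          (tow S 0).H (Matrix.trace (S.X ^ k 0 * S.D (x * e (m + (0 + 1) • β))))) =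
          Matrix.trace (S.X ^ k 0 * S.D (x * e (m + (0 + 1) • β))) := by
        unfold mono
        rw [run_zero, one_mul]
        show ∑ i : Unit, Matrix.trace (S.X ^ k 0 * S.D (x * e (m + (0 + 1) • β))) = _
        rw [Finset.sum_const, Finset.card_univ, Fintype.card_unit, one_smul]
      rw [h3, zero_add, one_smul]
      exact h0 _ _
    exact h2
  | succ j ih =>
    intro k x
    have hX := (hT A ι S (j + 1)).cX
    obtain ⟨y, hy⟩ : ∃ y, y = Matrix.trace (S.X ^ k 0 * S.D (x * e (m + (j + 1 + 1) • β))) :=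
      ⟨_, rfl⟩
    have h1 := trace_step S (tow S (j + 1)).H (tow S (j + 1)).X hX k (j + 1)
      (x * e (m + (j + 1 + 1) • β))
    rw [← hy] at h1
    have h2 : τ (Matrix.trace (mono (nX S (tow S (j + 1)).H (tow S (j + 1)).X) k (j + 1 + 1) *
        nH S (tow S (j + 1)).H (x * e (m + (j + 1 + 1) • β)))) = 0 := by
      rw [h1]
      have h3 : y = ∑ m' ∈ types, y * e m' := by
        rw [← Finset.mul_sum, B.sum, mul_one]
      rw [h3, map_sum, Finset.mul_sum, Matrix.trace_sum, map_sum]
      refine Finset.sum_eq_zero (fun m' _ => ?_)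
      by_cases h4 : m' = m + (j + 1) • β
      · rw [h4]
        exact ih _ _
      by_cases h5 : S.D (e (m + (j + 1 + 1) • β)) * Matrix.diagonal (fun _ => e m') = 0
      · have h6 : y * e m' = 0 := by
          rw [hy, trace_mul_diag, map_mul, mul_assoc, mul_assoc, h5, mul_zero, mul_zero,
            Matrix.trace_zero]
        rw [h6, map_zero, mul_zero, Matrix.trace_zero, map_zero]
      · have h6 : h (m + (j + 1 + 1) • β) = h m + (j + 2) := by
          rw [map_add, map_nsmul, B.hβ]
          simp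
          ring
        rcases B.bl _ _ h5 with h7 | h7
        · rw [h6] at h7
          have h8 : h m + ((j + 1 : ℕ) : ℤ) < h m' := by
            push_cast
            linarith
          have h9 := hW A ι S l e types h β B (j + 1) m m' h8
          rw [← hτ, trace_mul_diag, map_mul, mul_assoc, mul_assoc, h9, mul_zero, mul_zero,
            Matrix.trace_zero, map_zero]
        · exfalso
          apply h4
          rw [succ_nsmul, ← add_assoc] at h7
          exact (add_right_cancel h7).symm
    exact h2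

end Pool.Agent.Helper86.SQN
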