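import Mathlib
import Pool.Agent.Helper19.SQ.GoalsB

/-!
Project SQ, packet BINV.
-/

set_option autoImplicit false

namespace Pool.Agent.Helper86.SQ

open Pool.Agent.Helper19.SQ Pool.Agent.Helper41.SQ

open Classical in
theorem prod_lin (l : ℕ) [NeZero l] {q : ℂ} (h : IsPrimitiveRoot q l) (hodd : Odd l) :
    ∏ c : ZMod l, (1 - PowerSeries.C (qz q (2 * c)) * PowerSeries.X) =
      (1 - PowerSeries.X ^ l : PowerSeries ℂ) := by
  have hinj : Function.Injective (fun c : ZMod l => PowerSeries.C (qz q (2 * c))) := by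
    intro a b hab
    exact qz2_inj h hodd (PowerSeries.C_injective hab)
  have hC : IsPrimitiveRoot (PowerSeries.C q) l :=
    h.map_of_injective (f := PowerSeries.C) PowerSeries.C_injective
  have h1 := hC.pow_sub_pow_eq_prod_sub_mul 1 PowerSeries.X (NeZero.pos l)
  rw [one_pow] at h1
  have himg : Finset.univ.image (fun c : ZMod l => PowerSeries.C (qz q (2 * c))) =
      Polynomial.nthRootsFinset l (1 : PowerSeries ℂ) := by
    apply Finset.eq_of_subset_of_card_le
    · intro x hx
      obtain ⟨c, -, rfl⟩ := Finset.mem_image.1 hx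
      rw [Polynomial.mem_nthRootsFinset (NeZero.pos l), ← map_pow, qz_pow_l h.pow_eq_one,
        map_one]
    · rw [Finset.card_image_of_injective _ hinj, Finset.card_univ, ZMod.card,
        hC.card_nthRootsFinset]
  rw [h1, ← himg, Finset.prod_image (fun a _ b _ hab => hinj hab)]

/-- Packet BINV. -/
theorem b_binv : Pool.Agent.Helper19.SQ.S_BINV := by
  intro l _ q hq hodd m
  obtain ⟨K, hK⟩ : ∃ K : ℕ, ∀ c, m c - m (c + 1) ≤ K := by
    refine ⟨∑ c, (m c - m (c + 1)).toNat, fun c => ?_⟩
    refine (Int.self_le_toNat _).trans ?_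
    exact_mod_cast Finset.single_le_sum (f := fun c => (m c - m (c + 1)).toNat)
      (fun _ _ => Nat.zero_le _) (Finset.mem_univ c)
  have hn : ∀ c, (((K : ℤ) - (m c - m (c + 1))).toNat : ℤ) = (K : ℤ) - (m c - m (c + 1)) :=
    fun c => Int.toNat_of_nonneg (sub_nonneg.2 (hK c))
  refine ⟨K, ∏ c : ZMod l, (1 - Polynomial.C (qz q (2 * c)) * Polynomial.X) ^
    ((K : ℤ) - (m c - m (c + 1))).toNat, ?_, ?_⟩
  · have h1 : ∑ c : ZMod l, ((K : ℤ) - (m c - m (c + 1))).toNat = l * K := by
      have h2 : ((∑ c : ZMod l, ((K : ℤ) - (m c - m (c + 1))).toNat : ℕ) : ℤ) = (l * K : ℕ) := by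
        rw [Nat.cast_sum, Finset.sum_congr rfl (fun c _ => hn c), Finset.sum_sub_distrib,
          Finset.sum_const, Finset.card_univ, ZMod.card]
        have h3 := sum_diff m
        rw [Finset.sum_sub_distrib] at h3
        rw [Finset.sum_sub_distrib]
        push_cast
        rw [nsmul_eq_mul]
        linarith
      exact_mod_cast h2
    rw [← h1]
    refine (Polynomial.natDegree_prod_le _ _).trans (Finset.sum_le_sum fun c _ => ?_)
    refine (Polynomial.natDegree_pow_le).trans ?_
    refine (Nat.mul_le_mul_left _ (?_ : _ ≤ 1)).trans (mul_one _).le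
    refine (Polynomial.natDegree_sub_le _ _).trans (max_le ?_ ?_)
    · rw [Polynomial.natDegree_one]
      exact Nat.zero_le _
    · exact (Polynomial.natDegree_C_mul_le _ _).trans Polynomial.natDegree_X_le
  · have h1 : ((Polynomial.coeToPowerSeries.ringHom (∏ c : ZMod l,
        (1 - Polynomial.C (qz q (2 * c)) * Polynomial.X) ^
          ((K : ℤ) - (m c - m (c + 1))).toNat : Polynomial ℂ)) : PowerSeries ℂ) =
        ((∏ c : ZMod l, linU (qz q (2 * c)) ^ ((K : ℤ) - (m c - m (c + 1))) :
          (PowerSeries ℂ)ˣ) : PowerSeries ℂ) := by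
      rw [map_prod, Units.coe_prod]
      refine Finset.prod_congr rfl (fun c _ => ?_)
      rw [← hn c, zpow_natCast, map_pow, Units.val_pow_eq_pow_val]
      congr 1
      rw [map_sub, map_one, map_mul]
      show (1 : PowerSeries ℂ) - ((Polynomial.C _ : Polynomial ℂ) : PowerSeries ℂ) *
        ((Polynomial.X : Polynomial ℂ) : PowerSeries ℂ) = 1 - PowerSeries.C _ * PowerSeries.X
      rw [Polynomial.coe_C, Polynomial.coe_X]
    have h2 : (∏ c : ZMod l, linU (qz q (2 * c)) ^ ((K : ℤ) - (m c - m (c + 1))) :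
        (PowerSeries ℂ)ˣ) = (∏ c : ZMod l, linU (qz q (2 * c))) ^ K * (Bser q m)⁻¹ := by
      rw [Bser, ← Finset.prod_inv_distrib, ← Finset.prod_pow, ← Finset.prod_mul_distrib]
      refine Finset.prod_congr rfl (fun c _ => ?_)
      rw [zpow_sub, zpow_natCast]
    have h3 : ((∏ c : ZMod l, linU (qz q (2 * c)) : (PowerSeries ℂ)ˣ) : PowerSeries ℂ) =
        1 - PowerSeries.X ^ l := by
      rw [Units.coe_prod, ← prod_lin l hq hodd]
      rfl
    rw [h2, Units.val_mul, Units.val_pow_eq_pow_val, h3] at h1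
    exact h1

end Pool.Agent.Helper86.SQ
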